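import Pool.Agent.H.MP_b5c594_nt.Main

set_option autoImplicit false

open Pool.Agent.H.MP_b5c594_nt

namespace Pool.Agent.Results.MP_b5c594_nt.OffSails

/-- There is an algebraic arrangement such that for every large `N` best approximations of size at
most `N` exist, and none of them has both of its primitive vectors on the geometric continued
fraction of the arrangement. -/
theorem result : ∃ a b : Fin 2 → ℝ, IsAlgebraicArr a b ∧ ∃ N₀ : ℕ, ∀ N : ℕ, N₀ ≤ N →
    (∃ v w : Fin 2 → ℤ, IsBestApprox a b N v w) ∧
    ∀ v w : Fin 2 → ℤ, IsBestApprox a b N v w →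
      ¬ (toR v ∈ geomContFrac a b ∧ toR w ∈ geomContFrac a b) :=
  main

end Pool.Agent.Results.MP_b5c594_nt.OffSails
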